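import Mathlib
import Pool.Agent.Y740.Z.Stm
import Pool.Agent.H58P.Ht

/-! Points of a curve in the torus of dimension five with three relations (job ZF-ARITH, for
helper740). -/

set_option autoImplicit false

namespace Pool.Agent.Y500.ZF

open Polynomial Real NumberField Height Module Pool.Agent.Y740.Z

/-- an algebraic closure of the rational numbers -/
abbrev Qb : Type := AlgebraicClosure ℚ

lemma ht_eq {K : Type} [Field K] [NumberField K] (φ : K →+* Qb) (x : K) :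
    NumberField.absLogHeight₁ (φ x) = logHeight₁ x / finrank ℚ K := by
  have h1 := Pool.Agent.Helper259.AbsHt.absLogHeight_eq K φ ![1, x]
  have e : (fun i => φ (![1, x] i)) = ![1, φ x] := by
    funext i
    fin_cases i
    · simp
    · simp
  rw [e] at h1
  have h2 : NumberField.absLogHeight₁ (φ x) =
      Pool.Agent.Helper259.AbsHt.absLogHeight ![1, φ x] := Pool.Agent.H58P.absLogHeight₁_eq (φ x)
  rw [h2, h1, logHeight₁_eq_logHeight, logHeight_swap]

lemma bounded (D : ℝ) : ∃ n₀ : ℕ, ∀ n : ℕ, 1 ≤ n → (n : ℝ) ≤ D * (Real.log (2 * n)) ^ 6 →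
    n ≤ n₀ := by
  set D' := max D 0 with hD'
  have hD0 : 0 ≤ D' := le_max_right _ _
  have h1 := (Real.isLittleO_pow_log_id_atTop (n := 6)).bound
    (by positivity : (0 : ℝ) < 1 / (4 * (D' + 1)))
  obtain ⟨x₀, hx₀⟩ := Filter.eventually_atTop.1 h1
  refine ⟨⌈x₀⌉₊, fun n hn h => ?_⟩
  by_contra hlt
  rw [not_le] at hlt
  have hnx : x₀ ≤ 2 * (n : ℝ) := by
    have h2 : x₀ ≤ ⌈x₀⌉₊ := Nat.le_ceil x₀
    have h3 : ((⌈x₀⌉₊ : ℕ) : ℝ) ≤ n := by exact_mod_cast hlt.le
    have h4 : (0 : ℝ) ≤ n := Nat.cast_nonneg n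
    linarith
  have h2 := hx₀ (2 * (n : ℝ)) hnx
  have hn1 : (1 : ℝ) ≤ n := by exact_mod_cast hn
  have hl : 0 ≤ Real.log (2 * n) := Real.log_nonneg (by linarith)
  rw [Real.norm_of_nonneg (by positivity)] at h2
  simp only [id] at h2
  rw [Real.norm_of_nonneg (by positivity)] at h2
  have h3 : (n : ℝ) ≤ D' * (Real.log (2 * n)) ^ 6 :=
    h.trans (mul_le_mul_of_nonneg_right (le_max_left _ _) (by positivity))
  have h4 : D' * (Real.log (2 * n)) ^ 6 ≤ D' * (1 / (4 * (D' + 1)) * (2 * n)) :=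
    mul_le_mul_of_nonneg_left h2 hD0
  have h5 : D' * (1 / (4 * (D' + 1)) * (2 * n)) = (D' / (D' + 1)) * (n / 2) := by
    field_simp; ring
  have h6 : D' / (D' + 1) ≤ 1 := by rw [div_le_one (by positivity)]; linarith
  have h7 : (D' / (D' + 1)) * ((n : ℝ) / 2) ≤ 1 * (n / 2) :=
    mul_le_mul_of_nonneg_right h6 (by positivity)
  linarith

theorem t_ARITH : S_REL → S_CONJ → S_ARITH := by
  classical
  intro hREL hCONJ A hA U S C hFZ B
  obtain ⟨C', S', hC'⟩ := hCONJ 5 A hA U S C hFZ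
  obtain ⟨C₁, hC₁⟩ := hREL B
  obtain ⟨n₀, hn₀⟩ := bounded ((5 * C') ^ 3 * C₁)
  set R : Finset Qb := Finset.univ.biUnion fun l => ((A l).coeff 0).roots.toFinset with hR
  have hfin := Pool.Agent.H58W.northcott n₀ B
  refine ⟨S' ∪ R ∪ hfin.toFinset, fun s hs x hx hrel hs' hx' => ?_⟩
  rw [Finset.mem_union, Finset.mem_union, not_or, not_or] at hs
  obtain ⟨⟨hsS, hsR⟩, hsN⟩ := hs
  by_contra hU
  -- the coordinates are not zero
  have hx0 : ∀ l, x l ≠ 0 := by
    intro l h0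
    have h1 := hx l
    rw [h0, ev, eval₂_at_zero] at h1
    apply hsR
    rw [hR, Finset.mem_biUnion]
    refine ⟨l, Finset.mem_univ _, ?_⟩
    rw [Multiset.mem_toFinset, mem_roots (hA l), IsRoot.def]
    simpa [Polynomial.coe_aeval_eq_eval] using h1
  -- the field
  set K := IntermediateField.adjoin ℚ (insert s (Set.range x)) with hK
  have hfd : FiniteDimensional ℚ K :=
    IntermediateField.finiteDimensional_adjoin fun y _ =>
      (AlgebraicClosure.isAlgebraic ℚ).isAlgebraic y |>.isIntegral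
  have hNF : NumberField K := ⟨⟩
  have hsK : s ∈ K := IntermediateField.subset_adjoin _ _ (Set.mem_insert _ _)
  have hxK : ∀ l, x l ∈ K := fun l =>
    IntermediateField.subset_adjoin _ _ (Set.mem_insert_of_mem _ ⟨l, rfl⟩)
  set n := finrank ℚ K with hn
  have hn1 : 1 ≤ n := finrank_pos
  have hnR : (0 : ℝ) < n := by exact_mod_cast hn1
  let y : Fin 5 → K := fun l => ⟨x l, hxK l⟩
  have hy0 : ∀ l, y l ≠ 0 := fun l h => hx0 l (congrArg Subtype.val h)
  have hprod : ∀ w : Fin 5 → ℤ, ((∏ l, y l ^ w l : K) : Qb) = ∏ l, x l ^ w l := by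
    intro w
    have : ((∏ l, y l ^ w l : K) : Qb) = algebraMap K Qb (∏ l, y l ^ w l) := rfl
    rw [this, map_prod]
    refine Finset.prod_congr rfl fun l _ => ?_
    rw [map_zpow₀]; rfl
  have hone : ∀ w : Fin 5 → ℤ, ∏ l, y l ^ w l = 1 ↔ ∏ l, x l ^ w l = 1 := by
    intro w
    rw [← hprod w]
    constructor
    · intro h; rw [h]; rfl
    · intro h
      exact Subtype.ext h
  obtain ⟨b, hb0, hb1, hb⟩ := hC₁ K y hy0 (by
    obtain ⟨u, hu1, hu2⟩ := hrel
    exact ⟨u, hu1, fun k => (hone (u k)).2 (hu2 k)⟩) (by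
    intro l
    have h1 := ht_eq (algebraMap K Qb) (y l)
    have e : algebraMap K Qb (y l) = x l := rfl
    rw [e] at h1
    have h2 := hx' l
    rw [h1, div_le_iff₀ hnR] at h2
    exact h2)
  have hcj := hC' s hsS x hx b hb0 ((hone b).1 hb1)
  rcases hcj with h | h
  · exact hU h
  · obtain ⟨l₀, -, hl₀⟩ := Finset.exists_max_image Finset.univ (fun l => (b l).natAbs)
      Finset.univ_nonempty
    have h1 : n ≤ C' * (5 * (b l₀).natAbs) := by
      refine h.trans (Nat.mul_le_mul_left _ ?_)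
      calc ∑ l, (b l).natAbs ≤ ∑ _l : Fin 5, (b l₀).natAbs :=
            Finset.sum_le_sum fun l _ => hl₀ l (Finset.mem_univ _)
        _ = 5 * (b l₀).natAbs := by simp
    have h2 : (n : ℝ) ≤ (5 * C') * ((|b l₀| : ℤ) : ℝ) := by
      have h3 : (n : ℝ) ≤ ((C' * (5 * (b l₀).natAbs) : ℕ) : ℝ) := by exact_mod_cast h1
      have h4 : (((b l₀).natAbs : ℕ) : ℝ) = ((|b l₀| : ℤ) : ℝ) := by
        rw [Int.abs_eq_natAbs]; simp
      push_cast at h3
      rw [Nat.cast_natAbs] at h3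
      push_cast at h3 ⊢
      linarith
    have h3 : (n : ℝ) ^ 3 ≤ (5 * C') ^ 3 * (C₁ * n ^ 2 * (Real.log (2 * n)) ^ 6) := by
      calc (n : ℝ) ^ 3 ≤ ((5 * C') * ((|b l₀| : ℤ) : ℝ)) ^ 3 :=
            pow_le_pow_left₀ hnR.le h2 3
        _ = (5 * C') ^ 3 * ((|b l₀| : ℤ) : ℝ) ^ 3 := by ring
        _ ≤ _ := by
            have := hb l₀
            gcongr
    have h4 : (n : ℝ) ≤ ((5 * C') ^ 3 * C₁) * (Real.log (2 * n)) ^ 6 := by
      have h5 : (n : ℝ) * n ^ 2 ≤ (((5 * C') ^ 3 * C₁) * (Real.log (2 * n)) ^ 6) * n ^ 2 := by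
        calc (n : ℝ) * n ^ 2 = (n : ℝ) ^ 3 := by ring
          _ ≤ _ := h3
          _ = _ := by ring
      exact le_of_mul_le_mul_right h5 (by positivity)
    have hle := hn₀ n hn1 h4
    -- Northcott
    apply hsN
    rw [Set.Finite.mem_toFinset]
    refine ⟨?_, ?_⟩
    · refine le_trans ?_ hle
      have h5 : minpoly ℚ (⟨s, hsK⟩ : K) = minpoly ℚ s :=
        (minpoly.algebraMap_eq (algebraMap K Qb).injective (⟨s, hsK⟩ : K)).symm
      rw [← h5]
      exact minpoly.natDegree_le _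
    · have h6 : NumberField.absLogHeight₁ s = Pool.Agent.Helper259.AbsHt.absLogHeight ![1, s] :=
        Pool.Agent.H58P.absLogHeight₁_eq s
      rw [← h6]
      exact hs'

end Pool.Agent.Y500.ZF
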